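import Pool.Agent.H313.SX.Cont

set_option autoImplicit false

/-!
# MP_dd7e83_nt: extreme values of zeta and of its argument in all directions

No hypothesis is made. `S(t)` is the remainder term of the Riemann-von Mangoldt formula. For every `ε > 0` there are `A` and `c > 0` with the
following property. For all large `T` and ALL points `(x, y)` of the disc of radius `c √(log T / log log T)`, the `t` in `[T, 2T]` with
`|log |ζ(1/2 + it)| - x| ≤ A √(log log T)` and `|π S(t) - y| ≤ A √(log log T)` form a set of measure at least `T^(1 - ε)`.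
-/

namespace Pool.Agent.Results.MP_dd7e83_nt.ExtremeValuesInAllDirections

open Filter Topology MeasureTheory Complex

noncomputable section

/-- the number `N(t)` of the nontrivial zeros with ordinate in `(0, t]`, counted with multiplicity -/
def N (t : ℝ) : ℕ := ∑ᶠ s ∈ {s : ℂ | riemannZeta s = 0 ∧ 0 < s.re ∧ s.re < 1 ∧ 0 < s.im ∧ s.im ≤ t}, analyticOrderNatAt riemannZeta s

/-- the remainder term of the Riemann-von Mangoldt formula (`π⁻¹ arg ζ(1/2 + it)` up to `O(1/t)`) -/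
def S (t : ℝ) : ℝ :=
  (N t : ℝ) - (t / (2 * Real.pi) * Real.log (t / (2 * Real.pi)) - t / (2 * Real.pi) + 7 / 8)

/-- the `t` in `[T, 2T]` at which `log |ζ(1/2 + it)|` and `π S(t)` are within `R` of `x` and of `y` -/
def near (x y R T : ℝ) : Set ℝ := {t : ℝ | T ≤ t ∧ t ≤ 2 * T ∧
  |Real.log ‖riemannZeta (1 / 2 + t * I)‖ - x| ≤ R ∧ |Real.pi * S t - y| ≤ R}

lemma N_eq (t : ℝ) : N t = H370.NN riemannZeta 0 t := by
  unfold N H370.NN
  have : {s : ℂ | riemannZeta s = 0 ∧ 0 < s.re ∧ s.re < 1 ∧ 0 < s.im ∧ s.im ≤ t} = H370.zset riemannZeta 0 t := by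
    ext s
    simp only [H370.zset, Set.mem_ofPred_eq]
    tauto
  rw [this]
  rfl

lemma N_add {t : ℝ} (ht : 1 ≤ t) : (N t : ℝ) = N 1 + (H370.NN riemannZeta 1 t : ℝ) := by
  rw [N_eq, N_eq]
  have h : H370.zset riemannZeta 0 t = H370.zset riemannZeta 0 1 ∪ H370.zset riemannZeta 1 t := by
    ext s
    simp only [H370.zset, Set.mem_ofPred_eq, Set.mem_union]
    constructor
    · rintro ⟨a1, a2, a3, a4, a5⟩
      rcases le_or_gt s.im 1 with h1 | h1
      · exact Or.inl ⟨a1, a2, a3, h1, a5⟩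
      · exact Or.inr ⟨a1, a2, h1, a4, a5⟩
    · rintro (⟨a1, a2, a3, a4, a5⟩ | ⟨a1, a2, a3, a4, a5⟩)
      · exact ⟨a1, a2, a3, a4.trans ht, a5⟩
      · exact ⟨a1, a2, by linarith, a4, a5⟩
  have hd : Disjoint (H370.zset riemannZeta 0 1) (H370.zset riemannZeta 1 t) := by
    rw [Set.disjoint_left]
    rintro s ⟨-, -, -, h1, -⟩ ⟨-, -, h2, -, -⟩
    linarith
  unfold H370.NN
  rw [h, finsum_mem_union hd (H370.zeta_zeros_finite 1) ((H370.zeta_zeros_finite t).subset ?_)]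
  · push_cast
    ring
  · rintro s ⟨a1, a2, a3, a4, a5⟩
    exact ⟨a1, a2, by linarith, a4, a5⟩

lemma S_eq {t : ℝ} (ht : 1 ≤ t) : S t = Pool.Agent.K4H8.JG.E1 t + (N 1 - 7 / 8) := by
  unfold S Pool.Agent.K4H8.JG.E1 Pool.Agent.K4H8.JG.Em
  rw [N_add ht]
  ring

theorem result : ∀ ε : ℝ, 0 < ε → ∃ A c T₀ : ℝ, 0 < c ∧ ∀ T : ℝ, T₀ ≤ T → ∀ x y : ℝ,
    Real.sqrt (x ^ 2 + y ^ 2) ≤ c * Real.sqrt (Real.log T / Real.log (Real.log T)) →
    ENNReal.ofReal (T ^ (1 - ε)) ≤ volume (near x y (A * Real.sqrt (Real.log (Real.log T))) T) := by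
  intro ε hε
  obtain ⟨A, c₀, hA, hc₀, h⟩ := Pool.Agent.H313.SX.ext_cont hε
  have hll : Tendsto (fun T : ℝ => Real.log (Real.log T)) atTop atTop :=
    Real.tendsto_log_atTop.comp Real.tendsto_log_atTop
  obtain ⟨T₀, hT₀⟩ := eventually_atTop.1 (h.and ((eventually_ge_atTop (16 : ℝ)).and (hll.eventually_ge_atTop 1)))
  obtain ⟨c, hc⟩ : ∃ c : ℝ, c = (N 1 : ℝ) - 7 / 8 := ⟨_, rfl⟩
  refine ⟨A + Real.pi * |c|, c₀, T₀, hc₀, fun T hT x y hxy => ?_⟩
  have hnorm : ‖(x : ℂ) + (y : ℂ) * I‖ = Real.sqrt (x ^ 2 + y ^ 2) := Complex.norm_add_mul_I x y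
  have hre : ((x : ℂ) + (y : ℂ) * I).re = x := by simp
  have him : ((x : ℂ) + (y : ℂ) * I).im = y := by simp
  obtain ⟨hz, h3, hS1⟩ := hT₀ T hT
  obtain ⟨G, hG, hsub, h1⟩ := hz ((x : ℂ) + (y : ℂ) * I) (by rw [hnorm]; exact hxy)
  have hSq1 : 1 ≤ Real.sqrt (Real.log (Real.log T)) := Real.one_le_sqrt.2 hS1
  have hc0 : 0 ≤ Real.pi * |c| := by positivity
  have hcS : Real.pi * |c| ≤ Real.pi * |c| * Real.sqrt (Real.log (Real.log T)) := le_mul_of_one_le_right hc0 hSq1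
  have hsub2 : G ⊆ near x y ((A + Real.pi * |c|) * Real.sqrt (Real.log (Real.log T))) T := by
    intro t ht
    obtain ⟨⟨ht1, ht2⟩, g1, g2⟩ := hsub ht
    rw [hre] at g1
    rw [him] at g2
    refine ⟨ht1, ht2, ?_, ?_⟩
    · have g1' : |Real.log ‖riemannZeta (1 / 2 + t * I)‖ - x| ≤ A * Real.sqrt (Real.log (Real.log T)) := g1
      refine g1'.trans ?_
      rw [add_mul]
      linarith
    · rw [S_eq (by linarith), ← hc]
      have e2 : Real.pi * (Pool.Agent.K4H8.JG.E1 t + c) - y =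
          (Real.pi * Pool.Agent.K4H8.JG.E1 t - y) + Real.pi * c := by ring
      rw [e2]
      refine (abs_add_le _ _).trans ?_
      rw [abs_mul Real.pi c, abs_of_pos Real.pi_pos, add_mul]
      linarith
  calc ENNReal.ofReal (T ^ (1 - ε)) ≤ ENNReal.ofReal (volume.real G) := ENNReal.ofReal_le_ofReal h1
    _ ≤ volume G := ENNReal.ofReal_toReal_le
    _ ≤ _ := measure_mono hsub2

end

end Pool.Agent.Results.MP_dd7e83_nt.ExtremeValuesInAllDirections
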